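import Pool.Agent.Helper91.GU.StA

/-!
# GU module A1 (MP_b1e6de): clearing denominators
-/

set_option autoImplicit false

namespace Pool.Agent.Helper22.GU

open Polynomial Pool.Agent.Helper91.GU

universe u

/-- the substitution `X ↦ a X` -/
noncomputable def sub {A : Type u} [CommRing A] (a : A) : A[X] →+* A[X] :=
  compRingHom (C a * X)

theorem sub_apply {A : Type u} [CommRing A] (a : A) (P : A[X]) :
    sub a P = P.comp (C a * X) := rfl

theorem coeff_sub {A : Type u} [CommRing A] (a : A) (P : A[X]) (k : ℕ) :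
    (sub a P).coeff k = P.coeff k * a ^ k := by
  rw [sub_apply]
  exact comp_C_mul_X_coeff

theorem sub_sub {A : Type u} [CommRing A] (a b : A) (P : A[X]) :
    sub b (sub a P) = sub (a * b) P := by
  ext k
  rw [coeff_sub, coeff_sub, coeff_sub, mul_pow, mul_assoc]

theorem map_sub' {A B : Type u} [CommRing A] [CommRing B] (φ : A →+* B) (a : A) (P : A[X]) :
    (sub a P).map φ = sub (φ a) (P.map φ) := by
  ext k
  rw [coeff_map, coeff_sub, coeff_sub, coeff_map, map_mul, map_pow]

theorem eval_sub {A : Type u} [CommRing A] (a : A) (P : A[X]) :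
    (sub a P).eval 0 = P.eval 0 := by
  rw [← coeff_zero_eq_eval_zero, ← coeff_zero_eq_eval_zero, coeff_sub, pow_zero, mul_one]

section
variable {A As : Type u} [CommRing A] [CommRing As] [Algebra A As] (s : A)
  [IsLocalization.Away s As]

/-- a common power clears the coefficients -/
theorem clear_coeff (P : As[X]) : ∃ N : ℕ, ∀ k, ∃ a : A,
    algebraMap A As a = P.coeff k * algebraMap A As (s ^ N) := by
  have h1 : ∀ k, ∃ (m : ℕ) (a : A), algebraMap A As a = P.coeff k * algebraMap A As (s ^ m) := by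
    intro k
    obtain ⟨⟨a, ⟨_, m, rfl⟩⟩, h⟩ := IsLocalization.surj (Submonoid.powers s) (P.coeff k)
    exact ⟨m, a, h.symm⟩
  choose m a ha using h1
  refine ⟨P.support.sup m, fun k => ?_⟩
  by_cases hk : k ∈ P.support
  · have hle : m k ≤ P.support.sup m := Finset.le_sup hk
    refine ⟨a k * s ^ (P.support.sup m - m k), ?_⟩
    rw [map_mul, ha, mul_assoc, ← map_mul, ← pow_add, Nat.add_sub_of_le hle]
  · refine ⟨0, ?_⟩
    rw [notMem_support_iff.mp hk, map_zero, zero_mul]

/-- lifting a polynomial after `X ↦ s^N X` -/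
theorem lift_one (P : As[X]) (a0 : A) (h0 : P.eval 0 = algebraMap A As a0) :
    ∃ N₁ : ℕ, ∀ N, N₁ ≤ N → ∃ Q : A[X], Q.eval 0 = a0 ∧
      Q.map (algebraMap A As) = sub (algebraMap A As (s ^ N)) P := by
  obtain ⟨N₁, h1⟩ := clear_coeff s P
  choose b hb using h1
  have key : ∃ Q : A[X], Q.eval 0 = a0 ∧
      Q.map (algebraMap A As) = sub (algebraMap A As (s ^ N₁)) P := by
    refine ⟨C a0 + ∑ k ∈ P.support.erase 0, C (b k * (s ^ N₁) ^ (k - 1)) * X ^ k, ?_, ?_⟩
    · rw [← coeff_zero_eq_eval_zero, coeff_add, coeff_C_zero, finset_sum_coeff]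
      rw [Finset.sum_eq_zero, add_zero]
      intro k hk
      rw [coeff_C_mul_X_pow, if_neg]
      exact fun h => (Finset.mem_erase.mp hk).1 h.symm
    · ext k
      rw [coeff_map, coeff_add, finset_sum_coeff, coeff_sub]
      by_cases hk : k = 0
      · subst hk
        rw [Finset.sum_eq_zero, add_zero, coeff_C_zero, ← h0, pow_zero, mul_one,
          coeff_zero_eq_eval_zero]
        intro k hk
        rw [coeff_C_mul_X_pow, if_neg]
        exact fun h => (Finset.mem_erase.mp hk).1 h.symm
      · rw [coeff_C, if_neg hk, zero_add]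
        simp only [coeff_C_mul_X_pow]
        rw [Finset.sum_ite_eq]
        by_cases hs : k ∈ P.support
        · rw [if_pos (Finset.mem_erase.mpr ⟨hk, hs⟩), map_mul, hb, map_pow _ (s ^ N₁), mul_assoc,
            ← pow_succ', Nat.sub_add_cancel (Nat.one_le_iff_ne_zero.mpr hk)]
        · rw [if_neg (fun h => hs (Finset.mem_erase.mp h).2), notMem_support_iff.mp hs, map_zero,
            zero_mul]
  obtain ⟨Q, hQ0, hQ⟩ := key
  refine ⟨N₁, fun N hN => ⟨sub (s ^ (N - N₁)) Q, ?_, ?_⟩⟩
  · rw [eval_sub, hQ0]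
  · rw [map_sub', hQ, sub_sub, ← map_mul, ← pow_add, Nat.add_sub_of_le hN]

/-- killing a polynomial after `X ↦ s^N X` -/
theorem kill_one (Q : A[X]) (h0 : Q.eval 0 = 0) (h : Q.map (algebraMap A As) = 0) :
    ∃ N₂ : ℕ, ∀ N, N₂ ≤ N → sub (s ^ N) Q = 0 := by
  have h1 : ∀ k, ∃ m : ℕ, Q.coeff k * s ^ m = 0 := by
    intro k
    have h2 : algebraMap A As (Q.coeff k) = 0 := by
      rw [← coeff_map, h, coeff_zero]
    rw [IsLocalization.map_eq_zero_iff (Submonoid.powers s) As] at h2
    obtain ⟨⟨_, m, rfl⟩, h3⟩ := h2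
    exact ⟨m, by rw [mul_comm]; exact h3⟩
  choose m hm using h1
  refine ⟨Q.support.sup m, fun N hN => ?_⟩
  ext k
  rw [coeff_sub, coeff_zero]
  by_cases hk : k = 0
  · subst hk
    rw [coeff_zero_eq_eval_zero, h0, zero_mul]
  by_cases hs : k ∈ Q.support
  · have hle : m k ≤ N := (Finset.le_sup hs).trans hN
    have h4 : (s ^ N) ^ k = s ^ m k * s ^ (N * k - m k) := by
      rw [← pow_mul, ← pow_add, Nat.add_sub_of_le]
      calc m k ≤ N := hle
        _ = N * 1 := (mul_one N).symm
        _ ≤ N * k := Nat.mul_le_mul_left N (Nat.one_le_iff_ne_zero.mpr hk)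
    rw [h4, ← mul_assoc, hm, zero_mul]
  · rw [notMem_support_iff.mp hs, zero_mul]

/-- a uniform version of eventual statements over a finite type -/
theorem unif {ι : Type} [Finite ι] (p : ι → ℕ → Prop)
    (h : ∀ i, ∃ N₁ : ℕ, ∀ N, N₁ ≤ N → p i N) : ∃ N₁ : ℕ, ∀ N, N₁ ≤ N → ∀ i, p i N := by
  have := Fintype.ofFinite ι
  choose f hf using h
  refine ⟨Finset.univ.sup f, fun N hN i => hf i N ((Finset.le_sup (Finset.mem_univ i)).trans hN)⟩

/-- the matrix version of `lift_one` -/
theorem lift_mat {n : Type} [Fintype n] [DecidableEq n] (h : Matrix n n As[X])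
    (h0 : h.map (eval 0) = 1) : ∃ N₁ : ℕ, ∀ N, N₁ ≤ N → ∃ H : Matrix n n A[X],
      H.map (eval 0) = 1 ∧
      H.map (Polynomial.map (algebraMap A As)) = h.map (sub (algebraMap A As (s ^ N))) := by
  have h1 := unif (fun (ij : n × n) N => ∃ Q : A[X], Q.eval 0 = (1 : Matrix n n A) ij.1 ij.2 ∧
      Q.map (algebraMap A As) = sub (algebraMap A As (s ^ N)) (h ij.1 ij.2)) (by
    intro ij
    apply lift_one s (h ij.1 ij.2)
    have := congrFun (congrFun h0 ij.1) ij.2
    rw [Matrix.map_apply] at this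
    rw [this, Matrix.one_apply, Matrix.one_apply]
    split_ifs
    · rw [map_one]
    · rw [map_zero])
  obtain ⟨N₁, h1⟩ := h1
  refine ⟨N₁, fun N hN => ?_⟩
  have h2 := h1 N hN
  choose Q hQ0 hQ using h2
  refine ⟨Matrix.of (fun i j => Q (i, j)), ?_, ?_⟩
  · ext i j
    rw [Matrix.map_apply, Matrix.of_apply, hQ0]
  · ext1 i j
    rw [Matrix.map_apply, Matrix.of_apply, hQ, Matrix.map_apply]

theorem kill_mat {m n : Type} [Finite m] [Finite n] (E : Matrix m n A[X])
    (h0 : ∀ i j, (E i j).eval 0 = 0) (h : ∀ i j, (E i j).map (algebraMap A As) = 0) :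
    ∃ N₂ : ℕ, ∀ N, N₂ ≤ N → ∀ i j, sub (s ^ N) (E i j) = 0 := by
  obtain ⟨N₂, h2⟩ := unif (fun (ij : m × n) N => sub (s ^ N) (E ij.1 ij.2) = 0)
    (fun ij => kill_one (As := As) s _ (h0 ij.1 ij.2) (h ij.1 ij.2))
  exact ⟨N₂, fun N hN i j => h2 N hN (i, j)⟩

end

theorem hA1 : StA1.{u} := by
  intro A As _ _ _ s _ n _ _ h v w hdet h0 hvw hvw0
  -- the inverse matrix
  set h' : Matrix n n As[X] := h⁻¹ with hh'
  have hmul : h * h' = 1 := Matrix.mul_nonsing_inv h hdet
  have hmul' : h' * h = 1 := Matrix.nonsing_inv_mul h hdet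
  have h0' : h'.map (eval 0) = 1 := by
    have h1 : (h * h').map (evalRingHom (0 : As)) = (1 : Matrix n n As) := by
      rw [hmul]
      exact Matrix.map_one _ (map_zero _) (map_one _)
    rw [Matrix.map_mul] at h1
    have h2 : h.map (evalRingHom (0 : As)) = 1 := h0
    rw [h2, one_mul] at h1
    exact h1
  obtain ⟨Na, ha⟩ := lift_mat s h h0
  obtain ⟨Nb, hb⟩ := lift_mat s h' h0'
  set N₁ := max Na Nb with hN1
  obtain ⟨H, hH0, hH⟩ := ha N₁ (le_max_left _ _)
  obtain ⟨H', hH0', hH'⟩ := hb N₁ (le_max_right _ _)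
  -- the errors
  have hHH : ∀ i j, ((H * H' - 1) i j).eval 0 = 0 := by
    intro i j
    have h1 : (H * H' - 1).map (evalRingHom (0 : A)) = 0 := by
      rw [Matrix.map_sub _ (fun a b => map_sub _ a b), Matrix.map_mul]
      have h2 : H.map (evalRingHom (0 : A)) = 1 := hH0
      have h3 : H'.map (evalRingHom (0 : A)) = 1 := hH0'
      rw [h2, h3, one_mul, Matrix.map_one _ (map_zero _) (map_one _), sub_self]
    exact congrFun (congrFun h1 i) j
  have hHHm : ∀ i j, ((H * H' - 1) i j).map (algebraMap A As) = 0 := by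
    intro i j
    have h1 : (H * H' - 1).map (mapRingHom (algebraMap A As)) = 0 := by
      rw [Matrix.map_sub _ (fun a b => map_sub _ a b), Matrix.map_mul]
      have h2 : H.map (mapRingHom (algebraMap A As)) = h.map (sub (algebraMap A As (s ^ N₁))) := hH
      have h3 : H'.map (mapRingHom (algebraMap A As)) =
        h'.map (sub (algebraMap A As (s ^ N₁))) := hH'
      rw [h2, h3, ← Matrix.map_mul, hmul, Matrix.map_one _ (map_zero _) (map_one _),
        Matrix.map_one _ (map_zero _) (map_one _), sub_self]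
    exact congrFun (congrFun h1 i) j
  set V : Matrix Unit n A[X] := fun _ j => sub (s ^ N₁) (v j) with hV
  set W : Matrix Unit n A[X] := fun _ j => sub (s ^ N₁) (w j) with hW
  have hE0 : ∀ i j, ((V * H - W) i j).eval 0 = 0 := by
    intro i j
    have h1 : (V * H - W).map (evalRingHom (0 : A)) = 0 := by
      rw [Matrix.map_sub _ (fun a b => map_sub _ a b), Matrix.map_mul]
      have h2 : H.map (evalRingHom (0 : A)) = 1 := hH0
      rw [h2, Matrix.mul_one]
      ext a b
      rw [Matrix.sub_apply, Matrix.map_apply, Matrix.map_apply, hV, hW]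
      simp only [coe_evalRingHom]
      rw [eval_sub, eval_sub, hvw0, sub_self, Matrix.zero_apply]
    exact congrFun (congrFun h1 i) j
  have hEm : ∀ i j, ((V * H - W) i j).map (algebraMap A As) = 0 := by
    intro i j
    have h1 : (V * H - W).map (mapRingHom (algebraMap A As)) = 0 := by
      rw [Matrix.map_sub _ (fun a b => map_sub _ a b), Matrix.map_mul]
      have h2 : H.map (mapRingHom (algebraMap A As)) = h.map (sub (algebraMap A As (s ^ N₁))) := hH
      rw [h2]
      have h3 : V.map (mapRingHom (algebraMap A As)) =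
          (Matrix.of (fun (_ : Unit) j => (v j).map (algebraMap A As))).map
            (sub (algebraMap A As (s ^ N₁))) := by
        ext1 a b
        rw [Matrix.map_apply, Matrix.map_apply, hV, Matrix.of_apply]
        simp only [coe_mapRingHom]
        rw [map_sub']
      have h4 : W.map (mapRingHom (algebraMap A As)) =
          (Matrix.of (fun (_ : Unit) j => (w j).map (algebraMap A As))).map
            (sub (algebraMap A As (s ^ N₁))) := by
        ext1 a b
        rw [Matrix.map_apply, Matrix.map_apply, hW, Matrix.of_apply]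
        simp only [coe_mapRingHom]
        rw [map_sub']
      rw [h3, h4, ← Matrix.map_mul]
      have h5 : (Matrix.of (fun (_ : Unit) j => (v j).map (algebraMap A As))) * h =
          Matrix.of (fun (_ : Unit) j => (w j).map (algebraMap A As)) := by
        ext1 a b
        exact congrFun hvw b
      rw [h5, sub_self]
    exact congrFun (congrFun h1 i) j
  obtain ⟨Nc, hc⟩ := kill_mat (As := As) s _ hHH hHHm
  obtain ⟨Nd, hd⟩ := kill_mat (As := As) s _ hE0 hEm
  refine ⟨N₁ + max Nc Nd, fun N hN => ?_⟩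
  set M := N - N₁ with hM
  have hNM : N = N₁ + M := by omega
  have hMc : Nc ≤ M := (le_max_left Nc Nd).trans (by omega)
  have hMd : Nd ≤ M := (le_max_right Nc Nd).trans (by omega)
  have hcomp : ∀ P : A[X], sub (s ^ M) (sub (s ^ N₁) P) = sub (s ^ N) P := by
    intro P
    rw [sub_sub, ← pow_add, ← hNM]
  have hcomp' : ∀ P : As[X], sub (algebraMap A As (s ^ M)) (sub (algebraMap A As (s ^ N₁)) P) =
      sub (algebraMap A As (s ^ N)) P := by
    intro P
    rw [sub_sub, ← map_mul, ← pow_add, ← hNM]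
  refine ⟨H.map (sub (s ^ M)), ?_, ?_, ?_, ?_⟩
  · have h1 : H.map (sub (s ^ M)) * H'.map (sub (s ^ M)) = 1 := by
      rw [← Matrix.map_mul]
      have h2 : H * H' = (H * H' - 1) + 1 := (sub_add_cancel _ _).symm
      rw [h2, Matrix.map_add _ (fun a b => map_add _ a b),
        Matrix.map_one _ (map_zero _) (map_one _)]
      have h3 : (H * H' - 1).map (sub (s ^ M)) = 0 := by
        ext1 i j
        rw [Matrix.map_apply, hc M hMc i j, Matrix.zero_apply]
      rw [h3, zero_add]
    have h4 := congrArg Matrix.det h1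
    rw [Matrix.det_mul, Matrix.det_one] at h4
    exact IsUnit.of_mul_eq_one _ h4
  · ext i j
    rw [Matrix.map_apply, Matrix.map_apply, eval_sub]
    exact congrFun (congrFun hH0 i) j
  · ext1 i j
    rw [Matrix.map_apply, Matrix.map_apply, map_sub', Matrix.map_apply]
    have h1 := congrFun (congrFun hH i) j
    rw [Matrix.map_apply, Matrix.map_apply] at h1
    rw [h1, hcomp', sub_apply]
  · funext j
    have h1 : (V * H).map (sub (s ^ M)) = W.map (sub (s ^ M)) := by
      have h2 : V * H = (V * H - W) + W := (sub_add_cancel _ _).symm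
      rw [h2, Matrix.map_add _ (fun a b => map_add _ a b)]
      have h3 : (V * H - W).map (sub (s ^ M)) = 0 := by
        ext1 i j
        rw [Matrix.map_apply, hd M hMd i j, Matrix.zero_apply]
      rw [h3, zero_add]
    rw [Matrix.map_mul] at h1
    have h4 := congrFun (congrFun h1 ()) j
    rw [Matrix.map_apply] at h4
    have h5 : V.map (sub (s ^ M)) = Matrix.of (fun (_ : Unit) j => (v j).comp (C (s ^ N) * X)) := by
      ext1 a b
      rw [Matrix.map_apply, hV, Matrix.of_apply]
      simp only []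
      rw [hcomp, sub_apply]
    rw [h5] at h4
    have h6 : (Matrix.of (fun (_ : Unit) j => (v j).comp (C (s ^ N) * X)) * H.map (sub (s ^ M))) () j
      = Matrix.vecMul (fun j => (v j).comp (C (s ^ N) * X)) (H.map (sub (s ^ M))) j := rfl
    rw [← h6, h4, hW]
    simp only []
    rw [hcomp, sub_apply]

end Pool.Agent.Helper22.GU
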