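import Pool.Agent.Helper91.GU.StB

/-!
# GU module B7 (MP_b1e6de): formal properties of `REq`, `Um`, `row`
-/

set_option autoImplicit false

namespace Pool.Agent.Helper22.GU

open Polynomial Pool.Agent.Helper91.GU

universe u

section
variable {A B : Type u} [CommRing A] [CommRing B] (φ : A →+* B)
variable {n : Type} [Fintype n] [DecidableEq n]

theorem req_refl (v : n → A) : REq v v := ⟨1, by rw [Matrix.det_one]; exact isUnit_one,
  Matrix.vecMul_one v⟩

theorem req_symm {v w : n → A} (h : REq v w) : REq w v := by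
  obtain ⟨g, hg, rfl⟩ := h
  refine ⟨g⁻¹, ?_, ?_⟩
  · rw [Matrix.isUnit_nonsing_inv_det_iff]
    exact hg
  · rw [Matrix.vecMul_vecMul, Matrix.mul_nonsing_inv _ hg, Matrix.vecMul_one]

theorem req_trans {v w x : n → A} (h : REq v w) (h' : REq w x) : REq v x := by
  obtain ⟨g, hg, rfl⟩ := h
  obtain ⟨g', hg', rfl⟩ := h'
  refine ⟨g * g', ?_, ?_⟩
  · rw [Matrix.det_mul]
    exact hg.mul hg'
  · rw [Matrix.vecMul_vecMul]

theorem elem_det {M : Matrix n n A} (h : M ∈ Elem n A) : M.det = 1 := by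
  induction h using Submonoid.closure_induction with
  | mem x hx =>
    obtain ⟨i, j, c, hij, rfl⟩ := hx
    exact Matrix.det_transvection_of_ne i j hij c
  | one => exact Matrix.det_one
  | mul x y _ _ hx hy => rw [Matrix.det_mul, hx, hy, mul_one]

theorem eeq_req {v w : n → A} (h : EEq v w) : REq v w := by
  obtain ⟨e, he, hv⟩ := h
  exact ⟨e, by rw [elem_det he]; exact isUnit_one, hv⟩

theorem req_um {v w : n → A} (h : REq v w) (hv : Um v) : Um w := by
  obtain ⟨g, hg, rfl⟩ := h
  obtain ⟨y, hy⟩ := hv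
  refine ⟨Matrix.mulVec g⁻¹ y, ?_⟩
  rw [← Matrix.dotProduct_mulVec, Matrix.mulVec_mulVec, Matrix.mul_nonsing_inv _ hg,
    Matrix.one_mulVec]
  exact hy

theorem req_map {v w : n → A} (h : REq v w) : REq (mp φ v) (mp φ w) := by
  obtain ⟨g, hg, rfl⟩ := h
  refine ⟨g.map φ, ?_, ?_⟩
  · have h1 : (g.map φ).det = φ g.det := (RingHom.map_det φ g).symm
    rw [h1]
    exact hg.map φ
  · funext j
    exact (RingHom.map_vecMul φ g v j).symm

theorem um_map {v : n → A} (h : Um v) : Um (mp φ v) := by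
  obtain ⟨y, hy⟩ := h
  refine ⟨mp φ y, ?_⟩
  have h1 := RingHom.map_dotProduct φ v y
  rw [hy, map_one] at h1
  exact h1.symm

theorem row_lowU {r : ℕ} (a : A) (c y : Fin r → A) :
    Matrix.vecMul (row a c) (lowU y) = row (a - c ⬝ᵥ y) c := by
  unfold row lowU
  rw [Matrix.vecMul_fromBlocks]
  congr 1
  · funext i
    simp [Matrix.vecMul, dotProduct, sub_eq_add_neg]
  · funext j
    simp [Matrix.vecMul, dotProduct, Matrix.one_apply]

theorem row_upV {r : ℕ} (a : A) (c x : Fin r → A) :
    Matrix.vecMul (row a c) (upV x) = row a (fun j => c j - a * x j) := by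
  unfold row upV
  rw [Matrix.vecMul_fromBlocks]
  congr 1
  · funext i
    simp [Matrix.vecMul, dotProduct, Matrix.one_apply]
  · funext j
    simp [Matrix.vecMul, dotProduct, Matrix.one_apply, sub_eq_add_neg, add_comm]

theorem det_lowU {r : ℕ} (y : Fin r → A) : (lowU y).det = 1 := by
  unfold lowU
  rw [Matrix.det_fromBlocks_zero₁₂, Matrix.det_one, Matrix.det_one, mul_one]

theorem det_upV {r : ℕ} (x : Fin r → A) : (upV x).det = 1 := by
  unfold upV
  rw [Matrix.det_fromBlocks_zero₂₁, Matrix.det_one, Matrix.det_one, mul_one]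

theorem row_low {r : ℕ} (a a' : A) (c : Fin r → A) (h : a' - a ∈ idl c) :
    REq (row a c) (row a' c) := by
  obtain ⟨y, hy⟩ := Ideal.mem_span_range_iff_exists_fun.mp h
  refine ⟨lowU (fun j => - y j), by rw [det_lowU]; exact isUnit_one, ?_⟩
  rw [row_lowU]
  congr 1
  have h1 : c ⬝ᵥ (fun j => - y j) = - ∑ i, y i * c i := by
    rw [dotProduct, ← Finset.sum_neg_distrib]
    apply Finset.sum_congr rfl
    intro i _
    ring
  rw [h1, hy]
  ring

theorem row_up {r : ℕ} (a : A) (c c' : Fin r → A) (h : ∀ j, c' j - c j ∈ Ideal.span {a}) :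
    REq (row a c) (row a c') := by
  have h1 : ∀ j, ∃ x, c' j - c j = a * x := fun j => Ideal.mem_span_singleton.mp (h j)
  choose x hx using h1
  refine ⟨upV (fun j => - x j), by rw [det_upV]; exact isUnit_one, ?_⟩
  rw [row_upV]
  congr 1
  funext j
  rw [mul_neg, ← hx]
  ring

theorem row_mul {r : ℕ} (a : A) (c c' : Fin r → A) (e : Matrix (Fin r) (Fin r) A)
    (he : IsUnit e.det) (h : Matrix.vecMul c e = c') : REq (row a c) (row a c') := by
  refine ⟨Matrix.fromBlocks 1 0 0 e, ?_, ?_⟩
  · rw [Matrix.det_fromBlocks_zero₂₁, Matrix.det_one, one_mul]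
    exact he
  · subst h
    unfold row
    rw [Matrix.vecMul_fromBlocks]
    congr 1
    · funext i
      simp [Matrix.vecMul, dotProduct, Matrix.one_apply]
    · rw [Matrix.vecMul_zero, zero_add]
      rfl

theorem row_one {r : ℕ} (c : Fin r → A) : REq (row 1 c) (row 1 0) :=
  row_up 1 c 0 (fun j => by rw [Ideal.span_singleton_one]; trivial)

theorem row_top {r : ℕ} (a : A) (c : Fin r → A) (h : 1 ∈ idl c) : REq (row a c) (row 1 0) := by
  refine req_trans (row_low a 1 c ?_) (row_one c)
  rw [(Ideal.eq_top_iff_one _).mpr h]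
  trivial

theorem row_unit {r : ℕ} (a : A) (c : Fin r → A) (h : IsUnit a) : REq (row a c) (row 1 0) := by
  obtain ⟨b, hb⟩ := h.exists_right_inv
  have hbu : IsUnit b := IsUnit.of_mul_eq_one a (by rw [mul_comm]; exact hb)
  refine req_trans ?_ (row_one c)
  refine ⟨Matrix.fromBlocks (Matrix.of (fun _ _ => b)) 0 0 1, ?_, ?_⟩
  · rw [Matrix.det_fromBlocks_zero₂₁, Matrix.det_one, mul_one, Matrix.det_unique]
    exact hbu
  · unfold row
    rw [Matrix.vecMul_fromBlocks]
    congr 1
    · funext i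
      simp [Matrix.vecMul, dotProduct, hb]
    · funext j
      simp [Matrix.vecMul, dotProduct, Matrix.one_apply]

end

theorem hB7 : StB7.{u} := by
  intro A B _ _ φ
  refine ⟨fun n _ _ => ⟨req_refl, fun v w => req_symm, fun v w x => req_trans,
    fun v w => eeq_req, fun v w => req_um, fun v w => req_map φ, fun v => um_map φ⟩,
    fun r a a' c c' => ⟨row_low a a' c, row_up a c c', row_mul a c c', row_top a c,
      row_unit a c⟩⟩

end Pool.Agent.Helper22.GU
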